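import Pool.Agent.N590.IL.Stm

set_option autoImplicit false

namespace N590.IL

theorem ALL (hR : S_RAM) (hF : S_FIN) (hP : S_PRIM) :
    ∃ N : ℕ, ∀ K : Set E, IsCompact K → Convex ℝ K → (interior K).Nonempty →
      ∀ A : Set E,
        (A ⊆ frontier K ∧ ∀ x ∈ frontier K, ∃ a ∈ A, ∃ ε : ℝ, 0 < ε ∧ ε < 1 ∧
          (1 - ε) • x + ε • a ∈ interior K) →
        (∀ B : Set E, B ⊆ A → B ≠ A →
          ¬ (B ⊆ frontier K ∧ ∀ x ∈ frontier K, ∃ b ∈ B, ∃ ε : ℝ, 0 < ε ∧ ε < 1 ∧
            (1 - ε) • x + ε • b ∈ interior K)) →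
        A.encard ≤ (N : ℕ∞) := by
  classical
  obtain ⟨m, hm⟩ := hR ((Fin 4 → Fin 4) → Prop × Prop × Prop × Prop) 8 4
  refine ⟨m, fun K hK hconv hint A hA hprim => ?_⟩
  by_contra hlt
  rw [not_le] at hlt
  obtain ⟨a, p, hc⟩ := hP K hK hconv hint A hA hprim m hlt
  let f : Finset ℕ → (Fin 4 → Fin 4) → Prop × Prop × Prop × Prop := fun s =>
    if h : s.card = 4 ∧ s ⊆ Finset.range m then
      Col K a p (fun r => ⟨s.orderEmbOfFin h.1 r, Finset.mem_range.1
        (h.2 (Finset.orderEmbOfFin_mem s h.1 r))⟩)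
    else fun _ => (False, False, False, False)
  obtain ⟨H, hH, hcard, c, hcc⟩ := hm f
  let w : Fin 8 → Fin m := fun i => ⟨H.orderEmbOfFin hcard i, Finset.mem_range.1
    (hH (Finset.orderEmbOfFin_mem H hcard i))⟩
  have hw : StrictMono w := fun i j hij => (H.orderEmbOfFin hcard).strictMono hij
  refine hF K hK hconv hint (a ∘ w) (p ∘ w) ⟨?_, ?_⟩ c ?_
  · intro i j hij
    exact hc.adj _ _ (hw.injective.ne hij)
  · intro i
    exact hc.nad _
  · intro t ht
    have hwt : StrictMono (w ∘ t) := hw.comp ht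
    let g : Fin 4 → ℕ := fun r => (w (t r)).1
    have hg : StrictMono g := fun i j hij => hwt hij
    let s : Finset ℕ := Finset.univ.image g
    have hs4 : s.card = 4 := by
      rw [Finset.card_image_of_injective _ hg.injective]; simp
    have hsH : s ⊆ H := by
      intro x hx
      obtain ⟨r, -, rfl⟩ := Finset.mem_image.1 hx
      exact Finset.orderEmbOfFin_mem H hcard (t r)
    have hsm : s ⊆ Finset.range m := hsH.trans hH
    have h1 := hcc s hsH hs4
    have h2 : g = s.orderEmbOfFin hs4 :=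
      Finset.orderEmbOfFin_unique hs4 (fun r => Finset.mem_image_of_mem _ (Finset.mem_univ r)) hg
    have h3 : f s = Col K a p (fun r => ⟨s.orderEmbOfFin hs4 r, Finset.mem_range.1
        (hsm (Finset.orderEmbOfFin_mem s hs4 r))⟩) := by
      simp only [f]
      rw [dif_pos ⟨hs4, hsm⟩]
    have h4 : (fun r => (⟨s.orderEmbOfFin hs4 r, Finset.mem_range.1
        (hsm (Finset.orderEmbOfFin_mem s hs4 r))⟩ : Fin m)) = w ∘ t := by
      funext r
      apply Fin.ext
      exact (congrFun h2 r).symm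
    rw [h4] at h3
    rw [← h1, h3]
    rfl

end N590.IL
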