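import Pool.Agent.N590.IL.Stm
import Pool.Agent.Helper325.BorsukUlam

set_option autoImplicit false

namespace N590.IL

namespace CROSS

noncomputable section

/-- the median of three numbers -/
def med (a b c : ℝ) : ℝ := max (min a b) (min (max a b) c)

theorem med_neg (a b c : ℝ) : med (-a) (-b) (-c) = - med a b c := by
  unfold med
  simp only [max_def, min_def]
  split_ifs <;> linarith

theorem med_zero (a b c : ℝ) (h : med a b c = 0) : ∃ i k m : Fin 3, i ≠ k ∧ i ≠ m ∧ k ≠ m ∧
    (![a, b, c] : Fin 3 → ℝ) m = 0 ∧ 0 ≤ (![a, b, c] : Fin 3 → ℝ) i ∧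
      (![a, b, c] : Fin 3 → ℝ) k ≤ 0 := by
  unfold med at h
  rcases le_total a b with h1 | h1
  · rw [min_eq_left h1, max_eq_right h1] at h
    rcases le_total b c with h2 | h2
    · rw [min_eq_left h2, max_eq_right h1] at h
      exact ⟨2, 0, 1, by decide, by decide, by decide, h, by show 0 ≤ c; linarith,
        by show a ≤ 0; linarith⟩
    · rw [min_eq_right h2] at h
      rcases le_total a c with h3 | h3
      · rw [max_eq_right h3] at h
        exact ⟨1, 0, 2, by decide, by decide, by decide, h, by show 0 ≤ b; linarith,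
          by show a ≤ 0; linarith⟩
      · rw [max_eq_left h3] at h
        exact ⟨1, 2, 0, by decide, by decide, by decide, h, by show 0 ≤ b; linarith,
          by show c ≤ 0; linarith⟩
  · rw [min_eq_right h1, max_eq_left h1] at h
    rcases le_total a c with h2 | h2
    · rw [min_eq_left h2, max_eq_right h1] at h
      exact ⟨2, 1, 0, by decide, by decide, by decide, h, by show 0 ≤ c; linarith,
        by show b ≤ 0; linarith⟩
    · rw [min_eq_right h2] at h
      rcases le_total b c with h3 | h3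
      · rw [max_eq_right h3] at h
        exact ⟨0, 1, 2, by decide, by decide, by decide, h, by show 0 ≤ a; linarith,
          by show b ≤ 0; linarith⟩
      · rw [max_eq_left h3] at h
        exact ⟨0, 2, 1, by decide, by decide, by decide, h, by show 0 ≤ a; linarith,
          by show c ≤ 0; linarith⟩

theorem univ3 : ∀ i k m : Fin 3, i ≠ k → i ≠ m → k ≠ m →
    (Finset.univ : Finset (Fin 3)) = {i, k, m} := by decide

theorem sum3 {M : Type} [AddCommGroup M] (i k m : Fin 3) (h1 : i ≠ k) (h2 : i ≠ m) (h3 : k ≠ m)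
    (v : Fin 3 → M) : ∑ s, v s = v i + v k + v m := by
  rw [univ3 i k m h1 h2 h3, Finset.sum_insert (by simp [h1, h2]), Finset.sum_insert (by simp [h3]),
    Finset.sum_singleton, add_assoc]

theorem ex_coeff (x y : Fin 3 → E) : ∃ α β : Fin 3 → ℝ,
    ∑ i, α i • x i + ∑ j, β j • y j = 0 ∧ ∑ i, |α i| + ∑ j, |β j| = 1 ∧
    (∃ i k m : Fin 3, i ≠ k ∧ i ≠ m ∧ k ≠ m ∧ α m = 0 ∧ 0 ≤ α i ∧ α k ≤ 0) ∧
    (∃ i k m : Fin 3, i ≠ k ∧ i ≠ m ∧ k ≠ m ∧ β m = 0 ∧ 0 ≤ β i ∧ β k ≤ 0) := by
  let T : (Fin 6 → ℝ) → E := fun w =>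
    w 0 • x 0 + w 1 • x 1 + w 2 • x 2 + (w 3 • y 0 + w 4 • y 1 + w 5 • y 2)
  have hT : Continuous T := by
    show Continuous fun w : Fin 6 → ℝ =>
      w 0 • x 0 + w 1 • x 1 + w 2 • x 2 + (w 3 • y 0 + w 4 • y 1 + w 5 • y 2)
    fun_prop
  have hTneg : ∀ w, T (-w) = -T w := by
    intro w
    show (-w) 0 • x 0 + (-w) 1 • x 1 + (-w) 2 • x 2 +
      ((-w) 3 • y 0 + (-w) 4 • y 1 + (-w) 5 • y 2) =
      -(w 0 • x 0 + w 1 • x 1 + w 2 • x 2 + (w 3 • y 0 + w 4 • y 1 + w 5 • y 2))
    simp only [Pi.neg_apply, neg_smul]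
    abel
  let f : (Fin 6 → ℝ) → (Fin 5 → ℝ) := fun w =>
    ![T w 0, T w 1, T w 2, med (w 0) (w 1) (w 2), med (w 3) (w 4) (w 5)]
  have hf : Continuous f := by
    refine continuous_pi fun i => ?_
    have hTi : ∀ j : Fin 3, Continuous fun w => T w j := fun j =>
      (EuclideanSpace.proj j : E →L[ℝ] ℝ).continuous.comp hT
    fin_cases i
    · exact hTi 0
    · exact hTi 1
    · exact hTi 2
    · show Continuous fun w : Fin 6 → ℝ => med (w 0) (w 1) (w 2)
      unfold med
      fun_prop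
    · show Continuous fun w : Fin 6 → ℝ => med (w 3) (w 4) (w 5)
      unfold med
      fun_prop
  have hodd : ∀ w, f (-w) = -f w := by
    intro w
    funext i
    have h1 : ∀ j : Fin 3, T (-w) j = -(T w j) := fun j => by rw [hTneg]; rfl
    fin_cases i
    · exact h1 0
    · exact h1 1
    · exact h1 2
    · exact med_neg _ _ _
    · exact med_neg _ _ _
  obtain ⟨w, hw, hfw⟩ := Pool.Agent.Helper325.BorsukUlam.borsuk_ulam 5 f hf hodd
  have hw1 : ∑ i : Fin 6, |w i| = 1 := hw
  refine ⟨![w 0, w 1, w 2], ![w 3, w 4, w 5], ?_, ?_, ?_, ?_⟩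
  · have h0 : T w = 0 := by
      ext j
      fin_cases j
      · exact congrFun hfw 0
      · exact congrFun hfw 1
      · exact congrFun hfw 2
    rw [Fin.sum_univ_three, Fin.sum_univ_three]
    exact h0
  · rw [Fin.sum_univ_three, Fin.sum_univ_three]
    rw [Fin.sum_univ_six] at hw1
    simp only [Matrix.cons_val_zero, Matrix.cons_val_one, Matrix.cons_val]
    linarith
  · exact med_zero _ _ _ (congrFun hfw 3)
  · exact med_zero _ _ _ (congrFun hfw 4)

theorem seg_mem (o x y : E) (a b : ℝ) (ha : 0 ≤ a) (hb : 0 ≤ b) (hab : 0 < a + b) :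
    o + (a + b)⁻¹ • (a • (x - o) + b • (y - o)) ∈ segment ℝ x y := by
  refine ⟨a / (a + b), b / (a + b), by positivity, by positivity, ?_, ?_⟩
  · rw [← add_div, div_self hab.ne']
  · have h1 : a / (a + b) + b / (a + b) = 1 := by rw [← add_div, div_self hab.ne']
    have h2 : o = (a / (a + b) + b / (a + b)) • o := by rw [h1, one_smul]
    rw [smul_add, smul_smul, smul_smul, smul_sub, smul_sub]
    have e1 : (a + b)⁻¹ * a = a / (a + b) := by rw [mul_comm]; rfl
    have e2 : (a + b)⁻¹ * b = b / (a + b) := by rw [mul_comm]; rfl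
    rw [e1, e2]
    have h3 : o + ((a / (a + b)) • x - (a / (a + b)) • o + ((b / (a + b)) • y -
        (b / (a + b)) • o)) = (o - (a / (a + b) + b / (a + b)) • o) +
        ((a / (a + b)) • x + (b / (a + b)) • y) := by
      rw [add_smul]; abel
    rw [h3, ← h2, sub_self, zero_add]

theorem shrink (K : Set E) (hK : Convex ℝ K) (o q : E) (ho : o ∈ interior K) (s t : ℝ)
    (hs : 0 < s) (hst : s < t) (h1 : o + s⁻¹ • q ∈ K) : o + t⁻¹ • q ∈ interior K := by
  have ht : 0 < t := hs.trans hst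
  have h2 := hK.combo_interior_self_mem_interior ho h1
    (a := 1 - s / t) (b := s / t) (by rw [sub_pos, div_lt_one ht]; exact hst) (by positivity)
    (by ring)
  have e : (1 - s / t) • o + (s / t) • (o + s⁻¹ • q) = o + t⁻¹ • q := by
    rw [smul_add, smul_smul, ← add_assoc, ← add_smul]
    have e1 : 1 - s / t + s / t = 1 := by ring
    have e2 : s / t * s⁻¹ = t⁻¹ := by field_simp
    rw [e1, e2, one_smul]
  rwa [e] at h2

end

end CROSS

open CROSS in
theorem CROSS : S_CROSS := by
  intro K _ hK hne x y h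
  obtain ⟨o, ho⟩ := hne
  obtain ⟨α, β, hsum, habs, ⟨i, k, m, hik, him, hkm, hαm, hαi, hαk⟩,
    ⟨j, l, n, hjl, hjn, hln, hβn, hβj, hβl⟩⟩ :=
    ex_coeff (fun i => x i - o) (fun j => y j - o)
  refine ⟨i, k, j, l, hik, hjl, ?_⟩
  rw [sum3 i k m hik him hkm, sum3 j l n hjl hjn hln, hαm, hβn, zero_smul, zero_smul, add_zero,
    add_zero] at hsum
  rw [sum3 i k m hik him hkm, sum3 j l n hjl hjn hln, hαm, hβn, abs_zero, add_zero, add_zero,
    abs_of_nonneg hαi, abs_of_nonpos hαk, abs_of_nonneg hβj, abs_of_nonpos hβl] at habs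
  have hq : α i • (x i - o) + β j • (y j - o) = (-α k) • (x k - o) + (-β l) • (y l - o) := by
    rw [neg_smul, neg_smul]
    have h1 : α i • (x i - o) + β j • (y j - o) - (-(α k • (x k - o)) + -(β l • (y l - o))) = 0 := by
      rw [← hsum]; abel
    exact sub_eq_zero.1 h1
  rcases (add_nonneg hαi hβj).lt_or_eq with hs | hs
  · rcases (add_nonneg (neg_nonneg.2 hαk) (neg_nonneg.2 hβl)).lt_or_eq with ht | ht
    · have z1 := seg_mem o (x i) (y j) (α i) (β j) hαi hβj hs
      have z2 := seg_mem o (x k) (y l) (-α k) (-β l) (neg_nonneg.2 hαk) (neg_nonneg.2 hβl) ht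
      rw [← hq] at z2
      rcases lt_trichotomy (α i + β j) (-α k + -β l) with hlt | heq | hgt
      · exact absurd (shrink K hK o _ ho _ _ hs hlt (h i j _ z1).1) (h k l _ z2).2
      · rw [← heq] at z2
        exact ⟨_, z1, z2⟩
      · exact absurd (shrink K hK o _ ho _ _ ht hgt (h k l _ z2).1) (h i j _ z1).2
    · exfalso
      have h1 : α k = 0 := by linarith
      have h2 : β l = 0 := by linarith
      have z1 := seg_mem o (x i) (y j) (α i) (β j) hαi hβj hs
      rw [hq, h1, h2, neg_zero, zero_smul, zero_smul, add_zero, smul_zero, add_zero] at z1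
      exact (h i j _ z1).2 ho
  · exfalso
    have h1 : α i = 0 := by linarith
    have h2 : β j = 0 := by linarith
    have ht : 0 < -α k + -β l := by linarith
    have z2 := seg_mem o (x k) (y l) (-α k) (-β l) (neg_nonneg.2 hαk) (neg_nonneg.2 hβl) ht
    rw [← hq, h1, h2, zero_smul, zero_smul, add_zero, smul_zero, add_zero] at z2
    exact (h k l _ z2).2 ho

end N590.IL
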