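import Pool.Agent.N590.IL.Stm

set_option autoImplicit false

namespace N590.IL.FIN

open N590.IL

/-- sorting four different elements -/
lemma sort (v : Fin 4 → Fin 8) (hv : Function.Injective v) :
    ∃ t : Fin 4 → Fin 8, StrictMono t ∧ ∃ σ : Fin 4 → Fin 4, Function.Injective σ ∧
      ∀ i, t (σ i) = v i := by
  classical
  have hcard : (Finset.univ.image v).card = 4 := by
    rw [Finset.card_image_of_injective _ hv]; simp
  let t := (Finset.univ.image v).orderEmbOfFin hcard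
  have ht : ∀ i, ∃ j, t j = v i := by
    intro i
    have h1 : v i ∈ Set.range t := by
      rw [Finset.range_orderEmbOfFin]
      simp
    exact h1
  choose σ hσ using ht
  refine ⟨t, t.strictMono, σ, ?_, hσ⟩
  intro i j hij
  apply hv
  rw [← hσ i, ← hσ j, hij]

/-- two points of an open segment -/
lemma line {A B P Q : E} (hP : P ∈ openSegment ℝ A B) (hQ : Q ∈ openSegment ℝ A B)
    (hne : P ≠ Q) : P ∈ openSegment ℝ Q A ∨ P ∈ openSegment ℝ Q B := by
  rw [openSegment_eq_image] at hP hQ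
  obtain ⟨s, ⟨hs0, hs1⟩, rfl⟩ := hP
  obtain ⟨r, ⟨hr0, hr1⟩, rfl⟩ := hQ
  have hsr : s ≠ r := by
    rintro rfl
    exact hne rfl
  rcases lt_or_gt_of_ne hsr with h | h
  · left
    refine ⟨s / r, 1 - s / r, by positivity, ?_, by ring, ?_⟩
    · have : s / r < 1 := (div_lt_one hr0).2 h
      linarith
    · have hr : r ≠ 0 := hr0.ne'
      ext i
      simp only [PiLp.add_apply, PiLp.smul_apply, smul_eq_mul]
      field_simp
      ring
  · right
    have h1r : 0 < 1 - r := by linarith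
    refine ⟨(1 - s) / (1 - r), 1 - (1 - s) / (1 - r), by
      apply div_pos _ h1r
      linarith, ?_, by ring, ?_⟩
    · have : (1 - s) / (1 - r) < 1 := (div_lt_one h1r).2 (by linarith)
      linarith
    · have hr : 1 - r ≠ 0 := h1r.ne'
      ext i
      simp only [PiLp.add_apply, PiLp.smul_apply, smul_eq_mul]
      field_simp
      ring

def T0 : Fin 4 → Fin 8 := ![0, 2, 4, 6]

def T1 (q : Fin 4) : Fin 4 → Fin 8 := fun r => if r = q then ![1, 3, 5, 7] r else T0 r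

lemma T0_mono : StrictMono T0 := by
  intro a b
  revert a b
  decide

lemma T1_mono (q : Fin 4) : StrictMono (T1 q) := by
  intro a b
  revert q a b
  decide

lemma T1_ne (q r : Fin 4) (h : r ≠ q) : T1 q r = T0 r := by simp [T1, h]

lemma T1_self (q : Fin 4) : T1 q q ≠ T0 q := by revert q; decide

def Tc (n : Fin 13) (r : Fin 4) : Fin 8 :=
  ⟨4 + r.1 - n.1 / 4 - (if r.1 < n.1 % 4 then 1 else 0), by have := r.2; omega⟩

lemma Tc_mono (n : Fin 13) : StrictMono (Tc n) := by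
  intro a b
  revert n a b
  decide

lemma Tc_step : ∀ n : Fin 12, ∃ q : Fin 4, ∀ r : Fin 4, r ≠ q → Tc n.castSucc r = Tc n.succ r := by
  decide

lemma Tc_four : ∀ s : Fin 4, ∃ n : Fin 13, Tc n s = 4 := by
  decide

lemma ex3 : ∀ x y z : Fin 8, ∃ w, w ≠ x ∧ w ≠ y ∧ w ≠ z := by decide

lemma ex2 (x y : Fin 8) : ∃ w w' : Fin 8, w ≠ x ∧ w ≠ y ∧ w' ≠ x ∧ w' ≠ y ∧ w ≠ w' := by
  obtain ⟨w, h1, h2, -⟩ := ex3 x y x
  obtain ⟨w', h3, h4, h5⟩ := ex3 x y w
  exact ⟨w, w', h1, h2, h3, h4, h5.symm⟩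

lemma inj4 {x y z w : Fin 8} (h1 : x ≠ y) (h2 : x ≠ z) (h3 : x ≠ w) (h4 : y ≠ z) (h5 : y ≠ w)
    (h6 : z ≠ w) : Function.Injective ![x, y, z, w] := by
  intro i j hij
  fin_cases i <;> fin_cases j <;> simp_all

end N590.IL.FIN

namespace N590.IL

open FIN

theorem FIN (hQ : S_QUAD) (hM : S_SAME) (hE : S_ENDS) : S_FIN := by
  intro K hK hconv hint a p hc c hcol
  have haK : ∀ i, a i ∈ K := by
    intro i
    obtain ⟨w, h1, -, -⟩ := ex3 i i i
    obtain ⟨f, hf, -⟩ := hc.adj i w h1.symm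
    exact hf.1
  have hpK : ∀ i, p i ∈ K := by
    intro i
    obtain ⟨w, h1, -, -⟩ := ex3 i i i
    obtain ⟨f, -, hf⟩ := hc.adj w i h1
    exact hf.1
  have D1 : ∀ i k, i ≠ k → ∀ y ∈ K, a i ∉ openSegment ℝ (a k) y := by
    intro i k hik y hy h
    obtain ⟨f, hfa, hfp⟩ := hc.adj i k hik
    exact hc.nad k ⟨f, ((hE K f (a k) y (a i) (haK k) hy hfa).1 h).1, hfp⟩
  have D2 : ∀ j l, j ≠ l → ∀ y ∈ K, p j ∉ openSegment ℝ (p l) y := by
    intro j l hjl y hy h
    obtain ⟨f, hfa, hfp⟩ := hc.adj l j hjl.symm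
    exact hc.nad l ⟨f, hfa, ((hE K f (p l) y (p j) (hpK l) hy hfp).1 h).1⟩
  have D3 : ∀ i k, i ≠ k → a i ≠ a k := by
    intro i k hik h
    obtain ⟨f, hfa, hfp⟩ := hc.adj i k hik
    exact hc.nad k ⟨f, h ▸ hfa, hfp⟩
  have D4 : ∀ j l, j ≠ l → p j ≠ p l := by
    intro j l hjl h
    obtain ⟨f, hfa, hfp⟩ := hc.adj l j hjl.symm
    exact hc.nad l ⟨f, hfa, h ▸ hfp⟩
  have hcol' : ∀ (t : Fin 4 → Fin 8), StrictMono t → ∀ σ, Col K a p t σ = c σ :=
    fun t ht σ => congrFun (hcol t ht) σ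
  -- two strictly monotone maps have the same colours
  have tr : ∀ (t t' : Fin 4 → Fin 8), StrictMono t → StrictMono t' → ∀ σ,
      Col K a p t σ = Col K a p t' σ :=
    fun t t' ht ht' σ => (hcol' t ht σ).trans (hcol' t' ht' σ).symm
  have NX : ∀ j i k, j ≠ i → j ≠ k → i ≠ k → p j ∉ openSegment ℝ (a i) (a k) := by
    intro j i k h1 h2 h3 h
    obtain ⟨w, hw1, hw2, hw3⟩ := ex3 j i k
    obtain ⟨t, ht, σ, hσ, htσ⟩ := sort ![j, i, k, w] (inj4 h1 h2 hw1.symm h3 hw2.symm hw3.symm)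
    have e0 : t (σ 0) = j := by rw [htσ]; rfl
    have e1 : t (σ 1) = i := by rw [htσ]; rfl
    have e2 : t (σ 2) = k := by rw [htσ]; rfl
    have h0 : (Col K a p t σ).2.1 := by
      show p (t (σ 0)) ∈ openSegment ℝ (a (t (σ 1))) (a (t (σ 2)))
      rw [e0, e1, e2]; exact h
    have g0 : p (T0 (σ 0)) ∈ openSegment ℝ (a (T0 (σ 1))) (a (T0 (σ 2))) := by
      have := tr t T0 ht T0_mono σ
      rw [this] at h0
      exact h0
    have g1 : p (T1 (σ 0) (σ 0)) ∈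
        openSegment ℝ (a (T1 (σ 0) (σ 1))) (a (T1 (σ 0) (σ 2))) := by
      have h0' : (Col K a p t σ).2.1 := by
        show p (t (σ 0)) ∈ openSegment ℝ (a (t (σ 1))) (a (t (σ 2)))
        rw [e0, e1, e2]; exact h
      have := tr t (T1 (σ 0)) ht (T1_mono _) σ
      rw [this] at h0'
      exact h0'
    rw [T1_ne _ _ (hσ.ne (by decide)), T1_ne _ _ (hσ.ne (by decide))] at g1
    rcases line g1 g0 (D4 _ _ (T1_self _)) with g | g
    · exact D2 _ _ (T1_self _) _ (haK _) g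
    · exact D2 _ _ (T1_self _) _ (haK _) g
  have NY : ∀ j i k, j ≠ i → j ≠ k → i ≠ k → a j ∉ openSegment ℝ (p i) (p k) := by
    intro j i k h1 h2 h3 h
    obtain ⟨w, hw1, hw2, hw3⟩ := ex3 j i k
    obtain ⟨t, ht, σ, hσ, htσ⟩ := sort ![j, i, k, w] (inj4 h1 h2 hw1.symm h3 hw2.symm hw3.symm)
    have e0 : t (σ 0) = j := by rw [htσ]; rfl
    have e1 : t (σ 1) = i := by rw [htσ]; rfl
    have e2 : t (σ 2) = k := by rw [htσ]; rfl
    have h0 : (Col K a p t σ).2.2.1 := by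
      show a (t (σ 0)) ∈ openSegment ℝ (p (t (σ 1))) (p (t (σ 2)))
      rw [e0, e1, e2]; exact h
    have g0 : a (T0 (σ 0)) ∈ openSegment ℝ (p (T0 (σ 1))) (p (T0 (σ 2))) := by
      have h0' := h0
      rw [tr t T0 ht T0_mono σ] at h0'
      exact h0'
    have g1 : a (T1 (σ 0) (σ 0)) ∈
        openSegment ℝ (p (T1 (σ 0) (σ 1))) (p (T1 (σ 0) (σ 2))) := by
      have h0' := h0
      rw [tr t (T1 (σ 0)) ht (T1_mono _) σ] at h0'
      exact h0'
    rw [T1_ne _ _ (hσ.ne (by decide)), T1_ne _ _ (hσ.ne (by decide))] at g1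
    rcases line g1 g0 (D3 _ _ (T1_self _)) with g | g
    · exact D1 _ _ (T1_self _) _ (hpK _) g
    · exact D1 _ _ (T1_self _) _ (hpK _) g
  have NE : ∀ i j, i ≠ j → a i ≠ p j := by
    intro i j hij h
    obtain ⟨w, w', hw1, hw2, hw3, hw4, hw5⟩ := ex2 i j
    obtain ⟨t, ht, σ, hσ, htσ⟩ := sort ![i, j, w, w']
      (inj4 hij hw1.symm hw3.symm hw2.symm hw4.symm hw5)
    have e0 : t (σ 0) = i := by rw [htσ]; rfl
    have e1 : t (σ 1) = j := by rw [htσ]; rfl
    have h0 : (Col K a p t σ).2.2.2 := by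
      show a (t (σ 0)) = p (t (σ 1))
      rw [e0, e1]; exact h
    have g0 : a (T0 (σ 0)) = p (T0 (σ 1)) := by
      have h0' := h0
      rw [tr t T0 ht T0_mono σ] at h0'
      exact h0'
    have g1 : a (T1 (σ 1) (σ 0)) = p (T1 (σ 1) (σ 1)) := by
      have h0' := h0
      rw [tr t (T1 (σ 1)) ht (T1_mono _) σ] at h0'
      exact h0'
    rw [T1_ne _ _ (hσ.ne (by decide))] at g1
    exact D4 _ _ (T1_self _) (g1.symm.trans g0)
  -- a good pattern
  obtain ⟨s, s', u, u', hss, huu, hq⟩ := hQ (Fin 8) K hK hconv hint a p hc NE ![0, 2, 4] ![1, 3, 5]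
    (by intro i j; revert i j; decide) (by intro i j; revert i j; decide)
    (by intro i j; revert i j; decide)
  have hV : Function.Injective ![(![0, 2, 4] : Fin 3 → Fin 8) s, (![0, 2, 4] : Fin 3 → Fin 8) s',
      (![1, 3, 5] : Fin 3 → Fin 8) u, (![1, 3, 5] : Fin 3 → Fin 8) u'] := by
    have k1 : Function.Injective (![0, 2, 4] : Fin 3 → Fin 8) := by decide
    have k2 : Function.Injective (![1, 3, 5] : Fin 3 → Fin 8) := by decide
    have k3 : ∀ x y : Fin 3, (![0, 2, 4] : Fin 3 → Fin 8) x ≠ (![1, 3, 5] : Fin 3 → Fin 8) y := by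
      decide
    exact inj4 (k1.ne hss) (k3 _ _) (k3 _ _) (k3 _ _) (k3 _ _) (k2.ne huu)
  obtain ⟨t, ht, σ, hσ, htσ⟩ := sort _ hV
  have h0 : (Col K a p t σ).1 := by
    show Quad K a p (t (σ 0)) (t (σ 1)) (t (σ 2)) (t (σ 3))
    rw [htσ, htσ, htσ, htσ]
    exact hq
  have hquad : ∀ t' : Fin 4 → Fin 8, StrictMono t' →
      Quad K a p (t' (σ 0)) (t' (σ 1)) (t' (σ 2)) (t' (σ 3)) := by
    intro t' ht'
    have h0' := h0
    rw [tr t t' ht ht' σ] at h0'
    exact h0'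
  -- non-collinear triples
  have TA : ∀ x y z, x ≠ y → x ≠ z → y ≠ z → ∀ f g : E →L[ℝ] ℝ,
      Sup K f (a x) → Sup K f (a y) → Sup K f (p z) → Sup K g (a x) → Sup K g (a y) →
      Sup K g (p z) → ∀ w, Sup K f w → Sup K g w := by
    intro x y z hxy hxz hyz f g f1 f2 f3 g1 g2 g3
    refine hM K hconv hint f g (a x) (a y) (p z) (D3 _ _ hxy) (NE _ _ hyz) (NE _ _ hxz)
      (D1 _ _ hxy _ (hpK _)) (D1 _ _ hxy.symm _ (hpK _)) (NX _ _ _ hxz.symm hyz.symm hxy)
      f1 f2 f3 g1 g2 g3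
  have TP : ∀ x y z, x ≠ y → x ≠ z → y ≠ z → ∀ f g : E →L[ℝ] ℝ,
      Sup K f (a x) → Sup K f (p y) → Sup K f (p z) → Sup K g (a x) → Sup K g (p y) →
      Sup K g (p z) → ∀ w, Sup K f w → Sup K g w := by
    intro x y z hxy hxz hyz f g f1 f2 f3 g1 g2 g3
    refine hM K hconv hint f g (a x) (p y) (p z) (NE _ _ hxy) (D4 _ _ hyz) (NE _ _ hxz)
      (NY _ _ _ hxy hxz hyz) ?_ ?_ f1 f2 f3 g1 g2 g3
    · rw [openSegment_symm]
      exact D2 _ _ hyz _ (haK _)
    · rw [openSegment_symm]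
      exact D2 _ _ hyz.symm _ (haK _)
  choose F hF0 hF1 hF2 hF3 using fun n : Fin 13 => hquad (Tc n) (Tc_mono n)
  have ne : ∀ (t : Fin 4 → Fin 8), StrictMono t → ∀ i j : Fin 4, i ≠ j → t (σ i) ≠ t (σ j) :=
    fun t ht i j hij => ht.injective.ne (hσ.ne hij)
  have hbij : Function.Bijective σ := (Finite.injective_iff_bijective).1 hσ
  have step : ∀ n : Fin 12, (∀ w, Sup K (F n.castSucc) w → Sup K (F n.succ) w) ∧
      (∀ w, Sup K (F n.succ) w → Sup K (F n.castSucc) w) := by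
    intro n
    obtain ⟨q, hq'⟩ := Tc_step n
    obtain ⟨e, rfl⟩ := hbij.2 q
    have heq : ∀ e', e' ≠ e → Tc n.castSucc (σ e') = Tc n.succ (σ e') :=
      fun e' he' => hq' _ (hσ.ne he')
    have m := ne (Tc n.castSucc) (Tc_mono _)
    have A0 := hF0 n.castSucc
    have A1 := hF1 n.castSucc
    have A2 := hF2 n.castSucc
    have A3 := hF3 n.castSucc
    have B0 := hF0 n.succ
    have B1 := hF1 n.succ
    have B2 := hF2 n.succ
    have B3 := hF3 n.succ
    fin_cases e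
    · rw [← heq 1 (by decide)] at B1
      rw [← heq 2 (by decide)] at B2
      rw [← heq 3 (by decide)] at B3
      exact ⟨TP _ _ _ (m 1 2 (by decide)) (m 1 3 (by decide)) (m 2 3 (by decide)) _ _
        A1 A2 A3 B1 B2 B3, TP _ _ _ (m 1 2 (by decide)) (m 1 3 (by decide)) (m 2 3 (by decide)) _ _
        B1 B2 B3 A1 A2 A3⟩
    · rw [← heq 0 (by decide)] at B0
      rw [← heq 2 (by decide)] at B2
      rw [← heq 3 (by decide)] at B3
      exact ⟨TP _ _ _ (m 0 2 (by decide)) (m 0 3 (by decide)) (m 2 3 (by decide)) _ _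
        A0 A2 A3 B0 B2 B3, TP _ _ _ (m 0 2 (by decide)) (m 0 3 (by decide)) (m 2 3 (by decide)) _ _
        B0 B2 B3 A0 A2 A3⟩
    · rw [← heq 0 (by decide)] at B0
      rw [← heq 1 (by decide)] at B1
      rw [← heq 3 (by decide)] at B3
      exact ⟨TA _ _ _ (m 0 1 (by decide)) (m 0 3 (by decide)) (m 1 3 (by decide)) _ _
        A0 A1 A3 B0 B1 B3, TA _ _ _ (m 0 1 (by decide)) (m 0 3 (by decide)) (m 1 3 (by decide)) _ _
        B0 B1 B3 A0 A1 A3⟩
    · rw [← heq 0 (by decide)] at B0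
      rw [← heq 1 (by decide)] at B1
      rw [← heq 2 (by decide)] at B2
      exact ⟨TA _ _ _ (m 0 1 (by decide)) (m 0 2 (by decide)) (m 1 2 (by decide)) _ _
        A0 A1 A2 B0 B1 B2, TA _ _ _ (m 0 1 (by decide)) (m 0 2 (by decide)) (m 1 2 (by decide)) _ _
        B0 B1 B2 A0 A1 A2⟩
  have all : ∀ n : Fin 13, ∀ w, Sup K (F n) w → Sup K (F 0) w := by
    intro n
    induction n using Fin.induction with
    | zero => exact fun w h => h
    | succ n ih => exact fun w h => ih w ((step n).2 w h)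
  obtain ⟨n1, hn1⟩ := Tc_four (σ 0)
  obtain ⟨n2, hn2⟩ := Tc_four (σ 2)
  have k1 : Sup K (F 0) (a 4) := by
    apply all n1
    have := hF0 n1
    rwa [hn1] at this
  have k2 : Sup K (F 0) (p 4) := by
    apply all n2
    have := hF2 n2
    rwa [hn2] at this
  exact hc.nad 4 ⟨F 0, k1, k2⟩

end N590.IL
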