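import Pool.Agent.N590.IL.Stm

/-!
# Crowns from primitive illuminating sets
-/

set_option autoImplicit false

namespace N590.IL

/-- crowns from primitive illuminating sets -/
theorem PRIM (hS : S_SUPP) (hE : S_ENDS) : S_PRIM := by
  intro K hK hconv hint A hA hprim m hm
  obtain ⟨hAfr, hill⟩ := hA
  have hfrK : frontier K ⊆ K := hK.isClosed.frontier_subset
  -- `m` elements of `A`
  obtain ⟨t, htA, ht⟩ := Set.exists_subset_encard_eq hm.le
  have hfin : t.Finite := Set.finite_of_encard_eq_coe ht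
  have hcard : hfin.toFinset.card = m := by
    have h1 := hfin.encard_eq_coe_toFinset_card
    rw [ht] at h1
    exact_mod_cast h1.symm
  let e : Fin m ≃ hfin.toFinset := (Finset.equivFinOfCardEq hcard).symm
  let a : Fin m → E := fun i => (e i : E)
  have haA : ∀ i, a i ∈ A := fun i => htA (hfin.mem_toFinset.1 (e i).2)
  have hainj : Function.Injective a := fun i j h => e.injective (Subtype.ext h)
  -- the points
  have hp : ∀ i, ∃ x ∈ frontier K, ∀ b ∈ A, b ≠ a i → ∀ ε : ℝ, 0 < ε → ε < 1 →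
      (1 - ε) • x + ε • b ∉ interior K := by
    intro i
    have h1 := hprim (A \ {a i}) Set.diff_subset (by
      intro h
      have h2 : a i ∈ A \ {a i} := by rw [h]; exact haA i
      exact h2.2 rfl)
    by_contra hcon
    push Not at hcon
    refine h1 ⟨fun x hx => hAfr hx.1, fun x hx => ?_⟩
    obtain ⟨b, hb, hne, ε, h0, h1, h2⟩ := hcon x hx
    exact ⟨b, ⟨hb, hne⟩, ε, h0, h1, h2⟩
  choose p hpfr hpn using hp
  refine ⟨a, p, ?_, ?_⟩
  · intro i j hij
    have hne : a i ≠ a j := fun h => hij (hainj h)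
    have hz := hpn j (a i) (haA i) hne (1 / 2) (by norm_num) (by norm_num)
    have hzK : (1 - 1 / 2 : ℝ) • p j + (1 / 2 : ℝ) • a i ∈ K :=
      hconv (hfrK (hpfr j)) (hfrK (hAfr (haA i))) (by norm_num) (by norm_num) (by norm_num)
    obtain ⟨f, hf⟩ := hS K hK hconv hint _ hzK hz
    have h2 := (hE K f (p j) (a i) _ (hfrK (hpfr j)) (hfrK (hAfr (haA i))) hf).1
      ⟨1 - 1 / 2, 1 / 2, by norm_num, by norm_num, by norm_num, rfl⟩
    exact ⟨f, h2.2, h2.1⟩
  · rintro i ⟨f, hfa, hfp⟩
    obtain ⟨b, hb, ε, h0, h1, h2⟩ := hill (p i) (hpfr i)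
    by_cases hba : b = a i
    · subst hba
      have hval : f (a i) = f (p i) := le_antisymm (hfp.2.2 _ hfa.1) (hfa.2.2 _ hfp.1)
      have hfz : f ((1 - ε) • p i + ε • a i) = f (p i) := by
        rw [map_add, map_smul, map_smul, hval, smul_eq_mul, smul_eq_mul]
        ring
      have hsup : Sup K f ((1 - ε) • p i + ε • a i) := by
        refine ⟨interior_subset h2, hfp.2.1, fun y hy => ?_⟩
        rw [hfz]
        exact hfp.2.2 y hy
      exact (hE K f (p i) (a i) _ hfp.1 hfa.1 hsup).2 h2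
    · exact hpn i b hb hba ε h0 h1 h2

end N590.IL
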