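import Pool.Agent.N590.IL.Stm

/-!
# Project IL: two points a and two points p in a common supporting plane
-/

set_option autoImplicit false

namespace N590.IL

namespace QUAD

theorem seg_sup {K : Set E} (hcv : Convex ℝ K) {f : E →L[ℝ] ℝ} {x y z : E} (hx : Sup K f x) (hy : Sup K f y)
    (hz : z ∈ segment ℝ x y) : Sup K f z := by
  refine ⟨hcv.segment_subset hx.1 hy.1 hz, hx.2.1, fun u hu => ?_⟩
  obtain ⟨α, β, hα, hβ, hαβ, rfl⟩ := hz
  rw [map_add, map_smul, map_smul, smul_eq_mul, smul_eq_mul]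
  have h1 := hx.2.2 u hu
  have h2 := hy.2.2 u hu
  calc f u = α * f u + β * f u := by rw [← add_mul, hαβ, one_mul]
    _ ≤ α * f x + β * f y := add_le_add (mul_le_mul_of_nonneg_left h1 hα) (mul_le_mul_of_nonneg_left h2 hβ)

theorem seg_cases {x y z : E} (hz : z ∈ segment ℝ x y) : z = x ∨ z = y ∨ z ∈ openSegment ℝ x y := by
  rw [← insert_endpoints_openSegment] at hz
  simpa using hz

variable {ι : Type} {K : Set E} {a p : ι → E}

theorem D1 (hE : S_ENDS) (cr : Crown K a p) {i k : ι} (hik : i ≠ k) (hk : a k ∈ K) {y : E} (hy : y ∈ K) :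
    a i ∉ openSegment ℝ (a k) y := by
  intro h
  obtain ⟨f, h1, h2⟩ := cr.adj i k hik
  exact cr.nad k ⟨f, ((hE K f (a k) y (a i) hk hy h1).1 h).1, h2⟩

theorem D2 (hE : S_ENDS) (cr : Crown K a p) {j l : ι} (hjl : j ≠ l) (hl : p l ∈ K) {y : E} (hy : y ∈ K) :
    p j ∉ openSegment ℝ (p l) y := by
  intro h
  obtain ⟨f, h1, h2⟩ := cr.adj l j hjl.symm
  exact cr.nad l ⟨f, h1, ((hE K f (p l) y (p j) hl hy h2).1 h).1⟩

theorem D3 (cr : Crown K a p) {i k : ι} (hik : i ≠ k) : a i ≠ a k := by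
  intro h
  obtain ⟨f, h1, h2⟩ := cr.adj i k hik
  rw [h] at h1
  exact cr.nad k ⟨f, h1, h2⟩

theorem D4 (cr : Crown K a p) {j l : ι} (hjl : j ≠ l) : p j ≠ p l := by
  intro h
  obtain ⟨f, h1, h2⟩ := cr.adj l j hjl.symm
  rw [h] at h2
  exact cr.nad l ⟨f, h1, h2⟩

end QUAD

open QUAD in
theorem QUAD (hC : S_CROSS) (hS : S_SUPP) (hE : S_ENDS) : S_QUAD := by
  intro ι K hK hcv hint a p cr hne v w hv hw hvw
  have hsup : ∀ s t, ∀ z ∈ segment ℝ (a (v s)) (p (w t)), ∃ f, Sup K f z := by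
    intro s t z hz
    obtain ⟨f, h1, h2⟩ := cr.adj (v s) (w t) (hvw s t)
    exact ⟨f, seg_sup hcv h1 h2 hz⟩
  have ha : ∀ s, a (v s) ∈ K := by
    intro s
    obtain ⟨f, h1, _⟩ := cr.adj (v s) (w 0) (hvw s 0)
    exact h1.1
  have hp : ∀ t, p (w t) ∈ K := by
    intro t
    obtain ⟨f, _, h2⟩ := cr.adj (v 0) (w t) (hvw 0 t)
    exact h2.1
  obtain ⟨i, k, j, l, hik, hjl, z, hz1, hz2⟩ := hC K hK hcv hint (fun s => a (v s)) (fun t => p (w t)) (by
    intro s t z hz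
    obtain ⟨f, hf⟩ := hsup s t z hz
    exact ⟨hf.1, (hE K f z z z hf.1 hf.1 hf).2⟩)
  have hIK : v i ≠ v k := fun h => hik (hv h)
  have hJL : w j ≠ w l := fun h => hjl (hw h)
  refine ⟨i, k, j, l, hik, hjl, ?_⟩
  rcases seg_cases hz1 with h1 | h1 | h1
  · exfalso
    rcases seg_cases hz2 with h2 | h2 | h2
    · exact D3 cr hIK (h1.symm.trans h2)
    · exact hne _ _ (hvw i l) (h1.symm.trans h2)
    · rw [h1] at h2
      exact D1 hE cr hIK (ha k) (hp l) h2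
  · exfalso
    rcases seg_cases hz2 with h2 | h2 | h2
    · exact hne _ _ (hvw k j) (h2.symm.trans h1)
    · exact D4 cr hJL (h1.symm.trans h2)
    · rw [h1, openSegment_symm] at h2
      exact D2 hE cr hJL (hp l) (ha k) h2
  · rcases seg_cases hz2 with h2 | h2 | h2
    · exfalso
      rw [h2] at h1
      exact D1 hE cr hIK.symm (ha i) (hp j) h1
    · exfalso
      rw [h2, openSegment_symm] at h1
      exact D2 hE cr hJL.symm (hp j) (ha i) h1
    · obtain ⟨f0, hf0⟩ := hsup i j z hz1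
      obtain ⟨f, hf⟩ := hS K hK hcv hint z hf0.1 (hE K f0 z z z hf0.1 hf0.1 hf0).2
      have e1 := (hE K f _ _ z (ha i) (hp j) hf).1 h1
      have e2 := (hE K f _ _ z (ha k) (hp l) hf).1 h2
      exact ⟨f, e1.1, e2.1, e1.2, e2.2⟩

end N590.IL
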