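import Pool.Agent.N590.IL.Stm
import Pool.Agent.H330.Ramsey

/-!
IL/RAM (helper833): the finite Ramsey theorem from the infinite one.
-/

set_option autoImplicit false

namespace N590.IL

theorem RAM : S_RAM := by
  classical
  intro C _ h r
  by_contra hcon
  push Not at hcon
  choose f hf using hcon
  have key : ∀ s : Finset ℕ, ∃ c : C, ∀ᶠ m in (Filter.hyperfilter ℕ : Filter ℕ), f m s = c := by
    intro s
    obtain ⟨c, hc⟩ := Ultrafilter.eq_pure_of_finite
      ((Filter.hyperfilter ℕ).map (fun m => f m s))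
    refine ⟨c, ?_⟩
    have : ({c} : Set C) ∈ (Filter.hyperfilter ℕ).map (fun m => f m s) := by
      rw [hc]
      exact Ultrafilter.mem_pure.2 rfl
    exact this
  choose c hc using key
  obtain ⟨H0, c0, hinf, hH0⟩ := Pool.Agent.H330.infinite_ramsey r c
  obtain ⟨H, hHs, hHc⟩ := hinf.exists_subset_card_eq h
  have h1 : ∀ᶠ m in (Filter.hyperfilter ℕ : Filter ℕ), H ⊆ Finset.range m := by
    have h2 : ∀ᶠ m in Filter.atTop, H ⊆ Finset.range m := by
      filter_upwards [Filter.eventually_ge_atTop (H.sup id + 1)] with m hm x hx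
      have := Finset.le_sup (f := id) hx
      rw [Finset.mem_range]
      simp only [id] at this
      omega
    exact Filter.hyperfilter_le_cofinite (Nat.cofinite_eq_atTop ▸ h2)
  have h3 : ∀ᶠ m in (Filter.hyperfilter ℕ : Filter ℕ), ∀ s ∈ H.powerset, f m s = c s := by
    rw [Filter.eventually_all_finset]
    intro s _
    exact hc s
  obtain ⟨m, hm1, hm3⟩ := (h1.and h3).exists
  obtain ⟨s, hs, hsr, hne⟩ := hf m H hm1 hHc c0
  apply hne
  rw [hm3 s (Finset.mem_powerset.2 hs)]
  exact hH0 s hsr (fun x hx => hHs (Finset.mem_coe.2 (hs (Finset.mem_coe.1 hx))))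

end N590.IL
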