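import Pool.Agent.N590.IL.Stm

/-!
# Project IL: three points which are not collinear determine the supporting plane
-/

set_option autoImplicit false

namespace N590.IL

namespace SAME

open Module

/-- two differences of three points, none of them between the others, are independent -/
theorem indep {x y z : E} (hxy : x ≠ y) (hyz : y ≠ z) (hxz : x ≠ z)
    (hx : x ∉ openSegment ℝ y z) (hy : y ∉ openSegment ℝ x z) (hz : z ∉ openSegment ℝ x y) :
    LinearIndependent ℝ ![y - x, z - x] := by
  rw [LinearIndependent.pair_iff' (sub_ne_zero.mpr hxy.symm)]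
  intro c hc
  have hzc : z = (1 - c) • x + c • y := by
    rw [sub_eq_iff_eq_add.mp hc.symm]
    module
  rcases lt_trichotomy c 0 with h | h | h
  · apply hx
    have h1 : 0 < 1 - c := by linarith
    refine ⟨-c / (1 - c), 1 / (1 - c), div_pos (by linarith) h1, div_pos one_pos h1, ?_, ?_⟩
    · field_simp
      ring
    · rw [hzc, smul_add, smul_smul, smul_smul, one_div, inv_mul_cancel₀ h1.ne', one_smul,
        div_eq_inv_mul]
      module
  · rw [h] at hzc
    apply hxz
    rw [hzc]
    simp
  · rcases lt_trichotomy c 1 with h' | h' | h'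
    · apply hz
      exact ⟨1 - c, c, by linarith, h, by ring, hzc.symm⟩
    · rw [h'] at hzc
      apply hyz
      rw [hzc]
      simp
    · apply hy
      refine ⟨(c - 1) / c, 1 / c, div_pos (by linarith) h, div_pos one_pos h, ?_, ?_⟩
      · field_simp
        ring
      · rw [hzc, smul_add, smul_smul, smul_smul, one_div, inv_mul_cancel₀ h.ne', one_smul,
          div_eq_inv_mul]
        module

/-- the kernel of a nonzero functional which vanishes at two independent vectors -/
theorem ker_eq {u v : E} (h : LinearIndependent ℝ ![u, v]) (f : E →L[ℝ] ℝ) (hf : f ≠ 0)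
    (hu : f u = 0) (hv : f v = 0) :
    LinearMap.ker (f : E →ₗ[ℝ] ℝ) = Submodule.span ℝ (Set.range ![u, v]) := by
  symm
  apply Submodule.eq_of_le_of_finrank_eq
  · rw [Submodule.span_le]
    rintro _ ⟨i, rfl⟩
    fin_cases i
    · exact hu
    · exact hv
  · rw [finrank_span_eq_card h, Fintype.card_fin]
    have hf' : (f : E →ₗ[ℝ] ℝ) ≠ 0 := by
      intro h0
      apply hf
      ext w
      exact LinearMap.congr_fun h0 w
    have h1 := Module.Dual.finrank_ker_add_one_of_ne_zero (f := (f : E →ₗ[ℝ] ℝ)) hf'
    have h2 : finrank ℝ E = 3 := finrank_euclideanSpace_fin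
    rw [h2] at h1
    omega

/-- an interior point is not supported -/
theorem lt_of_interior {K : Set E} {o : E} (ho : o ∈ interior K) (f : E →L[ℝ] ℝ) (hf : f ≠ 0)
    {m : ℝ} (hm : ∀ y ∈ K, f y ≤ m) : f o < m := by
  obtain ⟨e, he⟩ : ∃ e, 0 < f e := by
    by_contra hcon
    push Not at hcon
    apply hf
    ext w
    have h1 := hcon w
    have h2 := hcon (-w)
    rw [map_neg] at h2
    have : f w = 0 := by linarith
    simpa using this
  have hcont : Filter.Tendsto (fun t : ℝ => o + t • e) (nhds 0) (nhds o) := by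
    have : Continuous (fun t : ℝ => o + t • e) := by fun_prop
    have h1 := this.tendsto 0
    simpa using h1
  have hev := hcont.eventually (mem_interior_iff_mem_nhds.mp ho)
  obtain ⟨ε, hε, hball⟩ := Metric.eventually_nhds_iff.mp hev
  have h1 : o + (ε / 2) • e ∈ K := by
    apply hball
    rw [Real.dist_eq, sub_zero, abs_of_pos (by linarith)]
    linarith
  have h2 := hm _ h1
  rw [map_add, map_smul, smul_eq_mul] at h2
  have h3 : 0 < ε / 2 * f e := by positivity
  linarith

end SAME

open SAME in
theorem SAME : S_SAME := by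
  intro K _ hint f g x y z hxy hyz hxz hx hy hz fx fy fz gx gy gz w fw
  have hli := indep hxy hyz hxz hx hy hz
  have hfy : f (y - x) = 0 := by
    rw [map_sub]
    linarith [fx.2.2 y fy.1, fy.2.2 x fx.1]
  have hfz : f (z - x) = 0 := by
    rw [map_sub]
    linarith [fx.2.2 z fz.1, fz.2.2 x fx.1]
  have hgy : g (y - x) = 0 := by
    rw [map_sub]
    linarith [gx.2.2 y gy.1, gy.2.2 x gx.1]
  have hgz : g (z - x) = 0 := by
    rw [map_sub]
    linarith [gx.2.2 z gz.1, gz.2.2 x gx.1]
  have kf := ker_eq hli f fx.2.1 hfy hfz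
  have kg := ker_eq hli g gx.2.1 hgy hgz
  obtain ⟨o, ho⟩ := hint
  have h1 := lt_of_interior ho f fx.2.1 fx.2.2
  have h2 := lt_of_interior ho g gx.2.1 gx.2.2
  -- `g` is a multiple of `f`
  have hmul : ∀ p : E, g p * f (x - o) = f p * g (x - o) := by
    intro p
    have h3 : f (x - o) • p - f p • (x - o) ∈ LinearMap.ker (f : E →ₗ[ℝ] ℝ) := by
      rw [LinearMap.mem_ker]
      show f (f (x - o) • p - f p • (x - o)) = 0
      rw [map_sub f, map_smul, map_smul, smul_eq_mul, smul_eq_mul]
      ring
    rw [kf, ← kg, LinearMap.mem_ker] at h3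
    have h4 : g (f (x - o) • p - f p • (x - o)) = 0 := h3
    rw [map_sub g, map_smul, map_smul, smul_eq_mul, smul_eq_mul] at h4
    linarith
  have hfo : 0 < f (x - o) := by rw [map_sub]; linarith
  have hfw : f w = f x := le_antisymm (fx.2.2 w fw.1) (fw.2.2 x fx.1)
  have hgw : g w = g x := by
    have h3 := hmul (w - x)
    rw [map_sub f w x, hfw, sub_self, zero_mul] at h3
    have h4 := (mul_eq_zero.mp h3).resolve_right hfo.ne'
    rw [map_sub] at h4
    linarith
  refine ⟨fw.1, gx.2.1, fun q hq => ?_⟩
  rw [hgw]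
  exact gx.2.2 q hq

end N590.IL
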