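import Pool.Agent.N590.IL.Stm

/-!
# Project IL (helper590): supporting functionals (SUPP and ENDS), by helper505
-/

set_option autoImplicit false

namespace N590.IL

theorem SUPP : S_SUPP := by
  intro K hK hconv hint z hz hzi
  obtain ⟨f, hf⟩ := geometric_hahn_banach_open_point hconv.interior isOpen_interior hzi
  refine ⟨f, hz, ?_, ?_⟩
  · rintro rfl
    obtain ⟨w, hw⟩ := hint
    have := hf w hw
    simp at this
  · intro y hy
    have h1 : y ∈ closure (interior K) := by
      rw [hconv.closure_interior_eq_closure_of_nonempty_interior hint]
      exact subset_closure hy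
    have h2 : IsClosed {y : E | f y ≤ f z} := isClosed_le f.continuous continuous_const
    exact closure_minimal (fun w hw => (hf w hw).le) h2 h1

theorem ENDS : S_ENDS := by
  intro K f x y z hx hy hf
  obtain ⟨hz, hf0, hle⟩ := hf
  constructor
  · rintro ⟨s, t, hs, ht, hst, hzs⟩
    have h1 : f z = s * f x + t * f y := by
      rw [← hzs, map_add, map_smul, map_smul, smul_eq_mul, smul_eq_mul]
    have hxz := hle x hx
    have hyz := hle y hy
    have h2 : f z ≤ f x := by
      by_contra h
      push Not at h
      have h3 : s * f x < s * f z := mul_lt_mul_of_pos_left h hs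
      have h4 : t * f y ≤ t * f z := mul_le_mul_of_nonneg_left hyz ht.le
      have h5 : s * f z + t * f z = f z := by rw [← add_mul, hst, one_mul]
      linarith
    have h3 : f z ≤ f y := by
      by_contra h
      push Not at h
      have h3 : t * f y < t * f z := mul_lt_mul_of_pos_left h ht
      have h4 : s * f x ≤ s * f z := mul_le_mul_of_nonneg_left hxz hs.le
      have h5 : s * f z + t * f z = f z := by rw [← add_mul, hst, one_mul]
      linarith
    exact ⟨⟨hx, hf0, fun w hw => (hle w hw).trans h2⟩, ⟨hy, hf0, fun w hw => (hle w hw).trans h3⟩⟩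
  · intro hi
    apply hf0
    have h1 : IsLocalMax f z := by
      filter_upwards [mem_interior_iff_mem_nhds.1 hi] with w hw using hle w hw
    have h2 := h1.fderiv_eq_zero
    rwa [f.fderiv] at h2

end N590.IL
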