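import Mathlib

/-!
# Project IL (helper590): primitive inner illuminating sets of convex bodies in space

Statements.
-/

set_option autoImplicit false

namespace N590.IL

abbrev E := EuclideanSpace ℝ (Fin 3)

/-- the nonzero functional `f` supports `K` at `x` -/
def Sup (K : Set E) (f : E →L[ℝ] ℝ) (x : E) : Prop :=
  x ∈ K ∧ f ≠ 0 ∧ ∀ y ∈ K, f y ≤ f x

/-- crowns: `a i` and `p j` lie in a common supporting plane if and only if `i ≠ j` -/
structure Crown {ι : Type} (K : Set E) (a p : ι → E) : Prop where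
  adj : ∀ i j, i ≠ j → ∃ f, Sup K f (a i) ∧ Sup K f (p j)
  nad : ∀ i, ¬ ∃ f, Sup K f (a i) ∧ Sup K f (p i)

/-- the finite Ramsey theorem -/
def S_RAM : Prop :=
  ∀ (C : Type) [Finite C] (h r : ℕ), ∃ m : ℕ, ∀ f : Finset ℕ → C,
    ∃ H : Finset ℕ, H ⊆ Finset.range m ∧ H.card = h ∧
      ∃ c : C, ∀ s : Finset ℕ, s ⊆ H → s.card = r → f s = c

/-- `K_{3,3}` has no straight line drawing on the boundary of a convex body in space -/
def S_CROSS : Prop :=
  ∀ K : Set E, IsCompact K → Convex ℝ K → (interior K).Nonempty →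
    ∀ x y : Fin 3 → E,
      (∀ i j, ∀ z ∈ segment ℝ (x i) (y j), z ∈ K ∧ z ∉ interior K) →
      ∃ i k j l : Fin 3, i ≠ k ∧ j ≠ l ∧
        ∃ z, z ∈ segment ℝ (x i) (y j) ∧ z ∈ segment ℝ (x k) (y l)

/-- existence of supporting functionals -/
def S_SUPP : Prop :=
  ∀ K : Set E, IsCompact K → Convex ℝ K → (interior K).Nonempty →
    ∀ z ∈ K, z ∉ interior K → ∃ f, Sup K f z

/-- a functional which supports a convex set at a point of an open segment supports it at the ends,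
and no supported point is interior -/
def S_ENDS : Prop :=
  ∀ (K : Set E) (f : E →L[ℝ] ℝ) (x y z : E), x ∈ K → y ∈ K → Sup K f z →
    (z ∈ openSegment ℝ x y → Sup K f x ∧ Sup K f y) ∧ z ∉ interior K

/-- two `a`s and two `p`s in a common supporting plane -/
def Quad {ι : Type} (K : Set E) (a p : ι → E) (i k j l : ι) : Prop :=
  ∃ f, Sup K f (a i) ∧ Sup K f (a k) ∧ Sup K f (p j) ∧ Sup K f (p l)

def S_QUAD : Prop :=
  ∀ (ι : Type) (K : Set E), IsCompact K → Convex ℝ K → (interior K).Nonempty →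
    ∀ a p : ι → E, Crown K a p → (∀ i j, i ≠ j → a i ≠ p j) →
    ∀ v w : Fin 3 → ι, Function.Injective v → Function.Injective w → (∀ s t, v s ≠ w t) →
      ∃ s s' t t' : Fin 3, s ≠ s' ∧ t ≠ t' ∧ Quad K a p (v s) (v s') (w t) (w t')

/-- three points which are not collinear determine the supporting plane -/
def S_SAME : Prop :=
  ∀ K : Set E, Convex ℝ K → (interior K).Nonempty →
    ∀ (f g : E →L[ℝ] ℝ) (x y z : E), x ≠ y → y ≠ z → x ≠ z →
      x ∉ openSegment ℝ y z → y ∉ openSegment ℝ x z → z ∉ openSegment ℝ x y →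
      Sup K f x → Sup K f y → Sup K f z → Sup K g x → Sup K g y → Sup K g z →
      ∀ w, Sup K f w → Sup K g w

/-- the colour of a 4-tuple -/
def Col {ι : Type} (K : Set E) (a p : ι → E) (t : Fin 4 → ι) :
    (Fin 4 → Fin 4) → Prop × Prop × Prop × Prop := fun σ =>
  (Quad K a p (t (σ 0)) (t (σ 1)) (t (σ 2)) (t (σ 3)),
    p (t (σ 0)) ∈ openSegment ℝ (a (t (σ 1))) (a (t (σ 2))),
    a (t (σ 0)) ∈ openSegment ℝ (p (t (σ 1))) (p (t (σ 2))),
    a (t (σ 0)) = p (t (σ 1)))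

/-- no homogeneous crown of size eight -/
def S_FIN : Prop :=
  ∀ K : Set E, IsCompact K → Convex ℝ K → (interior K).Nonempty →
    ∀ a p : Fin 8 → E, Crown K a p →
    ∀ c : (Fin 4 → Fin 4) → Prop × Prop × Prop × Prop,
      (∀ t : Fin 4 → Fin 8, StrictMono t → Col K a p t = c) → False

/-- crowns from primitive illuminating sets -/
def S_PRIM : Prop :=
  ∀ K : Set E, IsCompact K → Convex ℝ K → (interior K).Nonempty →
    ∀ A : Set E,
      (A ⊆ frontier K ∧ ∀ x ∈ frontier K, ∃ a ∈ A, ∃ ε : ℝ, 0 < ε ∧ ε < 1 ∧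
        (1 - ε) • x + ε • a ∈ interior K) →
      (∀ B : Set E, B ⊆ A → B ≠ A →
        ¬ (B ⊆ frontier K ∧ ∀ x ∈ frontier K, ∃ b ∈ B, ∃ ε : ℝ, 0 < ε ∧ ε < 1 ∧
          (1 - ε) • x + ε • b ∈ interior K)) →
      ∀ m : ℕ, (m : ℕ∞) < A.encard → ∃ a p : Fin m → E, Crown K a p

end N590.IL
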